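import Mathlib
import Pool.Agent.Lib.MP_058a58_ag.IncrFinal

open Polynomial Filter Topology

namespace Pool.Agent.Results.MP_058a58_ag.AbelianDefect

open TatePole

/-- Defect inequality over abelian fields, for increments.  Let `B` be a stable subspace of `W` on
which the Galois group acts through `Gal(ℚ(ζ_N)/ℚ)`, containing each Dirichlet character `χ` mod `N`
with multiplicity `mult χ`.  Let `Q χ p` be local factors of `W ⊗ χ`.  Then, for every finite set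
`F` of pairs `(χ, t)`, every `ε > 0` and all `s ≤ s'` close enough to `m + 1` from the right, with
`R = log ((s'-m-1)/(s-m-1))`, the vector of defects
`log |L(W ⊗ χ, s + it)| - log |L(W ⊗ χ, s' + it)| - mult(χ) [t = 0] R` has Euclidean norm at most
`(dim W - dim B) * R + ε`. -/
theorem result {ℓ : ℕ} [Fact ℓ.Prime] {W : Type*} [AddCommGroup W] [Module ℚ_[ℓ] W]
    [FiniteDimensional ℚ_[ℓ] W] (ρ : Representation ℚ_[ℓ] GQ W) (ι : ℚ_[ℓ] →+* ℂ)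
    (S : Finset ℕ) (P : ℕ → ℂ[X])
    (hgood : ∀ p : ℕ, p.Prime → p ∉ S → IsPureLocalFactor ρ ι p (P p))
    (B : Submodule ℚ_[ℓ] W) (hB : ∀ g : GQ, ∀ w ∈ B, ρ g w ∈ B)
    (N : ℕ) [NeZero N] (hN : ∀ p : ℕ, p.Prime → p ∣ N → p ∈ S)
    (mult : DirichletCharacter ℂ N → ℕ)
    (hmult : ∀ g : GQ, ∀ a : ℕ, (∀ ζ : QBar, ζ ^ N = 1 → g ζ = ζ ^ a) →
      ι (LinearMap.trace ℚ_[ℓ] B ((ρ g).restrict (hB g))) =
        ∑ χ : DirichletCharacter ℂ N, (mult χ : ℂ) * χ (a : ZMod N))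
    (Q : DirichletCharacter ℂ N → ℕ → ℂ[X])
    (hQ : ∀ χ, ∀ p : ℕ, p.Prime → p ∉ S → ∀ z, (Q χ p).eval z = (P p).eval (χ (p : ZMod N) * z))
    (hQbad : ∀ χ, ∀ p ∈ S, p.Prime → ∀ z : ℂ, ‖z‖ ≤ (p : ℝ)⁻¹ → (Q χ p).eval z ≠ 0)
    (m : ℕ) (F : Finset (DirichletCharacter ℂ N × ℝ)) (ε : ℝ) (hε : 0 < ε) :
    ∃ δ : ℝ, 0 < δ ∧ ∀ s s' : ℝ, m + 1 < s → s ≤ s' → s' < m + 1 + δ →
      ∑ f ∈ F, ((Real.log ‖LFun (Q f.1) m (s + f.2 * Complex.I)‖ -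
          Real.log ‖LFun (Q f.1) m (s' + f.2 * Complex.I)‖) -
        (if f.2 = 0 then (mult f.1 : ℝ) else 0) *
          Real.log ((s' - (m + 1)) / (s - (m + 1)))) ^ 2 ≤
      (((Module.finrank ℚ_[ℓ] W : ℝ) - Module.finrank ℚ_[ℓ] B) *
        Real.log ((s' - (m + 1)) / (s - (m + 1))) + ε) ^ 2 :=
  abelian_final hgood B hB hN mult hmult Q hQ hQbad m F ε hε

end Pool.Agent.Results.MP_058a58_ag.AbelianDefect
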