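import Mathlib
import Pool.Agent.Lib.MP_058a58_ag.AT.FinalL

open Polynomial Filter Topology

namespace Pool.Agent.Lib.MP_058a58_ag.Old.ArtinTwists

open TatePole

/-- Tate's formula and twists by Artin representations.  Let `B` be a `CycleSpace` of `W`, let `Γ` be
a finite quotient (by an open subgroup) of the absolute Galois group of `ℚ`, and let `κ i`, for `i`
in a finite set `J`, be any complex representations of `Γ` and `t i`, `c i` real numbers; let `Q i`
be local factors of `W ⊗ V i`.  Tate's formula for `W ⊗ V i` at the point `m + 1 + i t i` is that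
the order there of its `L`-function is `-r i`, where `r i` is the dimension of the invariants of
`B ⊗ V i` if `t i = 0`, and `0` otherwise.  Unconditionally, the defects
`log |L(W ⊗ V i, s + i t i)| - r i * log (1 / (s - m - 1))` are bounded in the `L¹`-norm: for every
`ε > 0` and all `s` close enough to `m + 1` from the right, their sum with the coefficients `c i` is
at most `((dim W - dim B) * β + ε) * log (1 / (s - m - 1))`, `β` being the mean of the absolute
value of `(γ, u) ↦ ∑ c i * tr (γ | V i) * exp (i * t i * u)` on `Γ × ℝ`. -/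
theorem result {ℓ : ℕ} [Fact ℓ.Prime] [Algebra ℚ_[ℓ] ℂ] {W : Type*} [AddCommGroup W]
    [Module ℚ_[ℓ] W] [FiniteDimensional ℚ_[ℓ] W] (ρ : Representation ℚ_[ℓ] GQ W)
    (S : Finset ℕ) (P : ℕ → ℂ[X])
    (hgood : ∀ p : ℕ, p.Prime → p ∉ S → IsPureLocalFactor ρ (algebraMap ℚ_[ℓ] ℂ) p (P p))
    (B : Submodule ℚ_[ℓ] W) (hB : CycleSpace ρ B)
    {Γ : Type*} [Group Γ] [Fintype Γ] (π : GQ →* Γ) (hπ : Function.Surjective π)
    (F : Finset QBar) (hF : ∀ g : GQ, (∀ x ∈ F, g x = x) → π g = 1)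
    {J : Type*} [Fintype J] (V : J → Type*) [∀ i, AddCommGroup (V i)] [∀ i, Module ℂ (V i)]
    [∀ i, FiniteDimensional ℂ (V i)] (κ : ∀ i, Representation ℂ Γ (V i)) (t : J → ℝ)
    (S' : J → Finset ℕ) (Q : J → ℕ → ℂ[X])
    (hQ : ∀ i, TwistFactors ρ (inflate π (κ i)) (S' i) (t i) (Q i)) (m : ℕ)
    (c : J → ℝ) (β : ℝ) (hβ : ∀ᶠ T in atTop, meanAbs κ t c T ≤ β) (ε : ℝ) (hε : 0 < ε) :
    ∃ δ : ℝ, 0 < δ ∧ ∀ s : ℝ, m + 1 < s → s < m + 1 + δ →
      |∑ i, c i * twistDefect (twistRank (resRep ρ B hB.stable) (inflate π (κ i)) (t i)) (Q i) m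
        (t i) s| ≤
      (((Module.finrank ℚ_[ℓ] W : ℝ) - Module.finrank ℚ_[ℓ] B) * β + ε) *
        Real.log (1 / (s - (m + 1))) := by
  have h := AT.artin_L1 hgood B hB π hπ F hF κ t S' Q hQ m c β hβ ε hε
  obtain ⟨u, hu, hsub⟩ := (mem_nhdsGT_iff_exists_Ioo_subset).mp h
  refine ⟨u - (m + 1), sub_pos.mpr hu, fun s h1 h2 => hsub ⟨h1, ?_⟩⟩
  linarith

end Pool.Agent.Lib.MP_058a58_ag.Old.ArtinTwists
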