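import Mathlib
import Pool.Agent.Lib.MP_058a58_ag.Pack

open Polynomial Filter Topology

namespace Pool.Agent.Results.MP_058a58_ag.MertensForm

open TatePole

/-- The `L`-function has a pole of order `r` at `s = m + 1` (limit along real `s → (m + 1)⁺`) if
and only if `∏_{p ≤ N} n_p` grows like `C (log N) ^ r`, for any numbers
`n_p = 1 + a_p / p + O(p ^ (-3/2))`, where `a_p = -(P p).coeff 1` is the trace of Frobenius; the
constants correspond.  The case `n_p = P_p(1/p)⁻¹` is the Mertens (or Birch and Swinnerton-Dyer)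
form of the conjecture. -/
theorem result {ℓ : ℕ} [Fact ℓ.Prime] {W : Type*} [AddCommGroup W] [Module ℚ_[ℓ] W]
    [FiniteDimensional ℚ_[ℓ] W] (ρ : Representation ℚ_[ℓ] GQ W) (ι : ℚ_[ℓ] →+* ℂ)
    (S : Finset ℕ) (P : ℕ → ℂ[X])
    (hgood : ∀ p : ℕ, p.Prime → p ∉ S → IsPureLocalFactor ρ ι p (P p))
    (hbad : ∀ p ∈ S, p.Prime → (P p).eval ((p : ℂ)⁻¹) ≠ 0)
    (n : ℕ → ℂ) (hn : ∀ p : ℕ, p.Prime → n p ≠ 0) (K : ℝ)
    (hK : ∀ p : ℕ, p.Prime → p ∉ S →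
      ‖n p - (1 - (P p).coeff 1 * (p : ℂ)⁻¹)‖ ≤ K * (p : ℝ) ^ (-(3 / 2) : ℝ))
    (m : ℕ) (r : ℤ) (c : ℂ) (hc : c ≠ 0) :
    Tendsto (fun s : ℝ => ((s : ℂ) - (m + 1)) ^ r * LFun P m s) (𝓝[>] ((m : ℝ) + 1)) (𝓝 c) ↔
    Tendsto (fun N : ℕ => (Real.log N : ℂ) ^ (-r) *
      ∏ p ∈ (Finset.Icc 1 N).filter Nat.Prime, n p) atTop
      (𝓝 (c * Real.exp (r * Real.eulerMascheroniConstant) *
        ∏' p : Nat.Primes, (n p * (P p).eval ((p : ℂ)⁻¹)))) :=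
  mertens_form hgood hbad n hn K hK m r hc

end Pool.Agent.Results.MP_058a58_ag.MertensForm
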