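import Mathlib
import Pool.Agent.Lib.MP_058a58_ag.AT.FinalRS

open Polynomial Filter Topology

namespace Pool.Agent.Results.MP_058a58_ag.RankinSelberg

open TatePole

/-- Tate's formula, twists by Artin representations and the Rankin-Selberg square.  Let `B` be a
`CycleSpace` of `W`, let `T = W / B` (the transcendental part), and let `(V i, t i)`, for `i` in a
finite set `J`, be pairs of an irreducible Artin representation and a real number, no two of them
isomorphic.  Let `Q i` be local factors of `W ⊗ V i` and `N` local factors of `T ⊗ T^∨`.  Tate's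
formula for `W ⊗ V i` at the point `m + 1 + i t i` is that the order there of its `L`-function is
`-r i`, where `r i` is the dimension of the invariants of `B ⊗ V i` if `t i = 0`, and `0` otherwise.
Unconditionally, for every `ε > 0` and all `s` close enough to `m + 1` from the right, the sum of the
squares of the defects `log |L(W ⊗ V i, s + i t i)| - r i * log (1 / (s - m - 1))` is at most
`(log |L(T ⊗ T^∨, s)| + ε * log (1 / (s - m - 1))) * log (1 / (s - m - 1))`. -/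
theorem result {ℓ : ℕ} [Fact ℓ.Prime] [Algebra ℚ_[ℓ] ℂ] {W : Type*} [AddCommGroup W]
    [Module ℚ_[ℓ] W] [FiniteDimensional ℚ_[ℓ] W] (ρ : Representation ℚ_[ℓ] GQ W)
    (S : Finset ℕ) (P : ℕ → ℂ[X])
    (hgood : ∀ p : ℕ, p.Prime → p ∉ S → IsPureLocalFactor ρ (algebraMap ℚ_[ℓ] ℂ) p (P p))
    (B : Submodule ℚ_[ℓ] W) (hB : CycleSpace ρ B)
    {J : Type*} [Fintype J] (V : J → Type*) [∀ i, AddCommGroup (V i)] [∀ i, Module ℂ (V i)]
    [∀ i, FiniteDimensional ℂ (V i)] (τ : ∀ i, Representation ℂ GQ (V i))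
    (hτ : ∀ i, IsArtin (τ i)) (t : J → ℝ)
    (hne : ∀ i j, i ≠ j → t i = t j → IsEmpty ((τ i).Equiv (τ j)))
    (S' : J → Finset ℕ) (Q : J → ℕ → ℂ[X])
    (hQ : ∀ i, TwistFactors ρ (τ i) (S' i) (t i) (Q i))
    (S'' : Finset ℕ) (N : ℕ → ℂ[X])
    (hN : ∀ p : ℕ, p.Prime → p ∉ S'' →
      IsPureLocalFactor (selfRep ρ B hB.stable) (algebraMap ℚ_[ℓ] ℂ) p (N p))
    (hbad : ∀ p ∈ S'', p.Prime → (N p).eval ((p : ℂ)⁻¹) ≠ 0)
    (m : ℕ) (ε : ℝ) (hε : 0 < ε) :
    ∃ δ : ℝ, 0 < δ ∧ ∀ s : ℝ, m + 1 < s → s < m + 1 + δ →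
      ∑ i, (twistDefect (twistRank (resRep ρ B hB.stable) (τ i) (t i)) (Q i) m (t i) s) ^ 2 ≤
      (Real.log ‖LFun N m s‖ + ε * Real.log (1 / (s - (m + 1)))) *
        Real.log (1 / (s - (m + 1))) := by
  have h := AT.artin_core_rs hgood B hB τ t hτ hne S' Q hQ S'' N hN hbad m ε hε
  obtain ⟨u, hu, hsub⟩ := (mem_nhdsGT_iff_exists_Ioo_subset).mp h
  refine ⟨u - (m + 1), sub_pos.mpr hu, fun s h1 h2 => hsub ⟨h1, ?_⟩⟩
  linarith

end Pool.Agent.Results.MP_058a58_ag.RankinSelberg
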