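import Mathlib
import Pool.Agent.Lib.MP_058a58_ag.IncrFinal

open Polynomial Filter Topology

namespace Pool.Agent.Results.MP_058a58_ag.UniformBound

open TatePole

/-- Uniform bound over all number fields, for increments.  Let `B` be a stable subspace of `W`,
fixed pointwise by all Galois elements that fix a certain finite set `F` of algebraic numbers, with
rational traces.  For every number field `K`, let `P'` be local factors of `indRep ρ K` (the
cohomology of `X ×_ℚ K` as a variety over `ℚ`).  Then, for every `ε > 0` and all `s ≤ s'` close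
enough to `m + 1` from the right, with `R = log ((s'-m-1)/(s-m-1))`, the increment
`log |L(s)| - log |L(s')|` differs from `cycleRank ρ B K * R` by at most
`(dim W - dim B) * R + ε`; here `dim W - dim B` does not depend on `K`.  With `s'` fixed this bounds
`log |L(s)| - cycleRank ρ B K * log (1/(s-m-1))` by `(dim W - dim B) * log (1/(s-m-1)) + C`. -/
theorem result {ℓ : ℕ} [Fact ℓ.Prime] {W : Type*} [AddCommGroup W] [Module ℚ_[ℓ] W]
    [FiniteDimensional ℚ_[ℓ] W] (ρ : Representation ℚ_[ℓ] GQ W) (ι : ℚ_[ℓ] →+* ℂ)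
    (S : Finset ℕ) (P : ℕ → ℂ[X])
    (hgood : ∀ p : ℕ, p.Prime → p ∉ S → IsPureLocalFactor ρ ι p (P p))
    (B : Submodule ℚ_[ℓ] W) (hB : ∀ g : GQ, ∀ w ∈ B, ρ g w ∈ B)
    (F : Finset QBar) (hF : ∀ g : GQ, (∀ x ∈ F, g x = x) → ∀ w ∈ B, ρ g w = w)
    (hrat : ∀ g : GQ, ∃ r : ℚ, LinearMap.trace ℚ_[ℓ] B ((ρ g).restrict (hB g)) = (r : ℚ_[ℓ]))
    (K : Type*) [Field K] [NumberField K] (S' : Finset ℕ) (P' : ℕ → ℂ[X])
    (hgood' : ∀ p : ℕ, p.Prime → p ∉ S' → IsPureLocalFactor (indRep ρ K) ι p (P' p))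
    (hbad' : ∀ p ∈ S', p.Prime → (P' p).eval ((p : ℂ)⁻¹) ≠ 0) (m : ℕ) (ε : ℝ) (hε : 0 < ε) :
    ∃ δ : ℝ, 0 < δ ∧ ∀ s s' : ℝ, m + 1 < s → s ≤ s' → s' < m + 1 + δ →
      |(Real.log ‖LFun P' m s‖ - Real.log ‖LFun P' m s'‖) -
        (cycleRank ρ B K : ℝ) * Real.log ((s' - (m + 1)) / (s - (m + 1)))| ≤
        ((Module.finrank ℚ_[ℓ] W : ℝ) - Module.finrank ℚ_[ℓ] B) *
          Real.log ((s' - (m + 1)) / (s - (m + 1))) + ε :=
  uniform_final hgood B hB F hF hrat K S' P' hgood' hbad' m ε hε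

end Pool.Agent.Results.MP_058a58_ag.UniformBound
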